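import Mathlib
import Pool.Agent.Lib.MP_1e7707_gt.Plane

/-!
# There is no partition of the plane into fewer than continuum many continua

A partition of the Euclidean plane into continua is a family of pairwise disjoint nonempty
compact connected sets whose union is the plane.
-/

/-- No family of fewer than continuum many pairwise disjoint (nonempty) compact connected subsets
of the Euclidean plane covers the plane. -/
theorem Pool.Agent.Results.MP_1e7707_gt.NoSmallPartition.result :
    ¬ ∃ G : Set (Set (EuclideanSpace ℝ (Fin 2))),
      (∀ K ∈ G, IsCompact K ∧ IsConnected K) ∧ G.PairwiseDisjoint id ∧ ⋃₀ G = Set.univ ∧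
        Cardinal.mk G < Cardinal.continuum := by
  rintro ⟨G, hG, hdisj, hcov, hlt⟩
  exact absurd (Pool.Agent.Lib.MP_1e7707_gt.continuum_le_of_plane_partition hG hdisj hcov)
    (not_le.mpr hlt)
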